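import Pool.Agent.Lib.MP_3dbc4a_an.Main

/-!
# MP_3dbc4a_an: a real Henon map with a wild attractor (saddle-node horseshoe)
-/

set_option autoImplicit false

open Filter Set MeasureTheory
open Pool.Agent.Wild

namespace Pool.Agent.Results.MP_3dbc4a_an.SaddleNodeHorseshoe

/-- For every Jacobian `0 < b < 1` there is a real Henon map `(x, y) ↦ (p(x) - b y, x)` of degree
`3` which has a wild attractor `Λ` in the sense of the problem file: `Λ` is a Cantor set,
`f(Λ) = Λ`, the basin of `Λ` has positive Lebesgue measure (it has nonempty interior), and `Λ` is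
strictly contained in a transitive set `T`.  Moreover `Λ` is itself transitive, and `T` is the
image of the full two sided 2-shift under an embedding which conjugates the shift to `f`. -/
theorem result (b : ℝ) (hb : 0 < b) (hb1 : b < 1) :
    ∃ p : Polynomial ℝ, p.natDegree = 3 ∧
      ∃ Λ T : Set (ℝ × ℝ),
        (Λ.Nonempty ∧ IsCompact Λ ∧ Perfect Λ ∧ IsTotallyDisconnected Λ) ∧
        henon p b '' Λ = Λ ∧
        0 < volume (basin (henon p b) Λ) ∧
        (interior (basin (henon p b) Λ)).Nonempty ∧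
        IsTransitiveSet (henon p b) Λ ∧
        IsTransitiveSet (henon p b) T ∧
        Λ ⊂ T ∧
        ∃ Ψ : (ℤ → Bool) → ℝ × ℝ, Continuous Ψ ∧ Function.Injective Ψ ∧ T = range Ψ ∧
          ∀ s, henon p b (Ψ s) = Ψ (fun n => s (n + 1)) := by
  have h0 : ((0 : ℝ), (0 : ℝ)) ∈ Psi hb '' gm := ⟨_, gm_zero, Psi_false hb⟩
  refine ⟨pp b, pp_degree hb, Psi hb '' gm, range (Psi hb), ?_⟩
  rw [henon_pp]
  refine ⟨gm_cantor hb, gm_image hb, (wild hb hb1).2.2.1, basin_interior hb hb1 h0,
    gm_transitive hb, horseshoe_transitive hb, ?_, Psi hb, Psi_continuous hb, Psi_injective hb,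
    rfl, F_Psi hb⟩
  refine ⟨image_subset_range _ _, fun h => ?_⟩
  obtain ⟨s, hs, e⟩ := h ⟨fun _ => true, rfl⟩
  exact gm_ne_univ (Psi_injective hb e ▸ hs)

end Pool.Agent.Results.MP_3dbc4a_an.SaddleNodeHorseshoe
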