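import Pool.Agent.Lib.MP_3dbc4a_an_W.IfaceMain

/-!
# MP_3dbc4a_an: a real Henon map with a wild attractor which attracts an open set
-/

set_option autoImplicit false

open Filter Set MeasureTheory
open scoped Topology
open Pool.Agent.Wild

namespace Pool.Agent.Results.MP_3dbc4a_an.WildAttractor

/-- There is a dissipative real Henon map `f(x, y) = (p(x) - b y, x)`, `0 < b < 1`, `p` a real
polynomial of degree at least `2`, with a wild attractor `Λ`: `Λ` is a Cantor set, `f(Λ) = Λ`,
there is a nonempty open set `D` such that the `ω`-limit set of every point of `D` is exactly `Λ`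
(in particular the basin of `Λ` has positive Lebesgue measure), the forward orbits of the points
of `D` converge to `Λ`, and `Λ` is strictly contained in a transitive set `T`. -/
theorem result :
    ∃ (p : Polynomial ℝ) (b : ℝ), 2 ≤ p.natDegree ∧ 0 < b ∧ b < 1 ∧
      ∃ Λ T D : Set (ℝ × ℝ),
        (Λ.Nonempty ∧ IsCompact Λ ∧ Perfect Λ ∧ IsTotallyDisconnected Λ) ∧
        henon p b '' Λ = Λ ∧
        IsOpen D ∧ D.Nonempty ∧
        (∀ z ∈ D, omegaSet (henon p b) z = Λ ∧
          Tendsto (fun n : ℕ => Metric.infDist ((henon p b)^[n] z) Λ) atTop (𝓝 0)) ∧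
        0 < volume (basin (henon p b) Λ) ∧
        IsTransitiveSet (henon p b) T ∧ Λ ⊂ T :=
  Pool.Agent.WildW.main_result

end Pool.Agent.Results.MP_3dbc4a_an.WildAttractor
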